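import Mathlib
import Pool.Agent.Results.MP_8a2df8_gt.DenseSigmaCompactFactor
import Pool.Agent.Results.MP_590c78_gt.PerfectPreimage

/-!
# Every Tychonoff space is a clopen subspace of a perfect preimage of a Grothendieck space
-/

set_option autoImplicit false

open Set Filter Topology

namespace Pool.Agent.Results.MP_590c78_gt.EverySpaceInside

universe u v

/-- `C_p(X)`: the continuous real functions on `X` with the topology of pointwise convergence. -/
abbrev Cp (X : Type u) [TopologicalSpace X] : Type u := {f : X → ℝ // Continuous f}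

/-- `A` is countably compact in `Z`: each infinite subset of `A` has an accumulation point in `Z`. -/
def CountablyCompactIn {Z : Type u} [TopologicalSpace Z] (A : Set Z) : Prop :=
  ∀ B : Set Z, B ⊆ A → B.Infinite → ∃ z : Z, AccPt z (𝓟 B)

/-- `Z` is a g-space: `closure A` is compact for every `A` that is countably compact in `Z`. -/
def GSpace (Z : Type u) [TopologicalSpace Z] : Prop :=
  ∀ A : Set Z, CountablyCompactIn A → IsCompact (closure A)

/-- `X` is weakly Grothendieck: `C_p(X)` is a g-space. -/
def WeaklyGrothendieck (X : Type u) [TopologicalSpace X] : Prop := GSpace (Cp X)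

/-- `X` is Grothendieck: every subspace of `C_p(X)` is a g-space. -/
def Grothendieck (X : Type u) [TopologicalSpace X] : Prop := ∀ S : Set (Cp X), GSpace S

/-- `f` is perfect: continuous, closed and surjective, with compact fibres. -/
def IsPerfect {X : Type u} {Y : Type v} [TopologicalSpace X] [TopologicalSpace Y] (f : X → Y) :
    Prop :=
  Continuous f ∧ IsClosedMap f ∧ Function.Surjective f ∧ ∀ y, IsCompact (f ⁻¹' {y})

section construction

variable (E : Type u) [TopologicalSpace E]

/-- the Grothendieck space: a copy of `E` in the Stone-Čech compactification `C` of `E`, at the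
height `0`, together with the copies of `C` at the heights `1, 1/2, 1/3, …` -/
abbrev G : Type u := {z : StoneCech E × ℝ //
  (z.2 = 0 ∧ z.1 ∈ range (stoneCechUnit : E → StoneCech E)) ∨ ∃ n : ℕ, z.2 = 1 / ((n : ℝ) + 1)}

variable {E}

/-- the copy of `E` in `G E` -/
def emb (e : E) : G E := ⟨(stoneCechUnit e, 0), Or.inl ⟨rfl, e, rfl⟩⟩

/-- the `n`-th level of `G E` -/
noncomputable def lev (n : ℕ) (c : StoneCech E) : G E := ⟨(c, 1 / ((n : ℝ) + 1)), Or.inr ⟨n, rfl⟩⟩

theorem lev_continuous (n : ℕ) : Continuous (lev (E := E) n) :=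
  Continuous.subtype_mk (continuous_id.prodMk continuous_const) _

theorem emb_continuous : Continuous (emb (E := E)) :=
  Continuous.subtype_mk (continuous_stoneCechUnit.prodMk continuous_const) _

theorem range_emb : range (emb (E := E)) = {z : G E | z.1.2 = 0} := by
  ext z
  constructor
  · rintro ⟨e, rfl⟩
    rfl
  · intro hz
    obtain ⟨⟨c, t⟩, h⟩ := z
    have ht : t = 0 := hz
    subst ht
    rcases h with ⟨-, e, he⟩ | ⟨n, hn⟩
    · have he' : stoneCechUnit e = c := he
      subst he'
      exact ⟨e, rfl⟩
    · exfalso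
      have h1 : (0 : ℝ) < 1 / ((n : ℝ) + 1) := by positivity
      have h2 : (0 : ℝ) = 1 / ((n : ℝ) + 1) := hn
      linarith

theorem emb_closedEmbedding [T35Space E] : IsClosedEmbedding (emb (E := E)) := by
  refine ⟨?_, ?_⟩
  · refine IsEmbedding.of_comp emb_continuous
      (g := fun z : G E => z.1.1) (continuous_fst.comp continuous_subtype_val) ?_
    exact isEmbedding_stoneCechUnit
  · rw [range_emb]
    exact isClosed_eq (continuous_snd.comp continuous_subtype_val) continuous_const

theorem dense_levels : MP_8a2df8_gt.DenseSigmaCompactFactor.HasDenseSigmaCompact (G E) := by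
  refine ⟨⋃ n, range (lev (E := E) n), isSigmaCompact_iUnion_of_isCompact _
    fun n => isCompact_range (lev_continuous n), ?_⟩
  rintro ⟨⟨c, t⟩, h⟩
  rcases h with ⟨ht, e, he⟩ | ⟨n, hn⟩
  · have ht' : t = 0 := ht
    subst ht'
    have h1 : Tendsto (fun n : ℕ => lev (E := E) n c) atTop
        (𝓝 (⟨(c, 0), Or.inl ⟨rfl, e, he⟩⟩ : G E)) := by
      rw [tendsto_subtype_rng]
      exact tendsto_const_nhds.prodMk_nhds tendsto_one_div_add_atTop_nhds_zero_nat
    exact mem_closure_of_tendsto h1
      (Eventually.of_forall fun n => mem_iUnion.2 ⟨n, c, rfl⟩)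
  · have hn' : t = 1 / ((n : ℝ) + 1) := hn
    subst hn'
    exact subset_closure (mem_iUnion.2 ⟨n, c, rfl⟩)

theorem grothendieck_G : Grothendieck (G E) := by
  have h1 : MP_8a2df8_gt.DenseSigmaCompactFactor.Grothendieck PUnit.{1} :=
    PerfectPreimage.grothendieck_of_separable PUnit
  have h2 : MP_8a2df8_gt.DenseSigmaCompactFactor.Grothendieck (PUnit.{1} × G E) :=
    MP_8a2df8_gt.DenseSigmaCompactFactor.grothendieck_prod h1 dense_levels
  exact MP_8a2df8_gt.DenseSigmaCompactFactor.grothendieck_of_maps (D := univ) dense_univ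
    fun w => ⟨PUnit.{1} × G E, inferInstance, Prod.snd, h2, continuous_snd,
      fun z _ => ⟨(PUnit.unit, z), rfl⟩, ⟨(PUnit.unit, w), rfl⟩⟩

/-- the perfect map -/
def F : E ⊕ G E → G E := Sum.elim emb id

theorem F_perfect [T35Space E] : IsPerfect (F (E := E)) := by
  refine ⟨emb_continuous.sumElim continuous_id,
    emb_closedEmbedding.isClosedMap.sumElim IsClosedMap.id, fun y => ⟨Sum.inr y, rfl⟩, ?_⟩
  intro y
  have h : F (E := E) ⁻¹' {y} = Sum.inl '' (emb ⁻¹' {y}) ∪ Sum.inr '' {y} := by
    ext x
    cases x <;> simp [F]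
  rw [h]
  refine IsCompact.union (IsCompact.image ?_ continuous_inl)
    (isCompact_singleton.image continuous_inr)
  exact (emb_closedEmbedding (E := E)).isCompact_preimage isCompact_singleton

theorem F_fibre [T35Space E] (y : G E) : (F (E := E) ⁻¹' {y}).encard ≤ 2 := by
  have h : F (E := E) ⁻¹' {y} = Sum.inl '' (emb ⁻¹' {y}) ∪ Sum.inr '' {y} := by
    ext x
    cases x <;> simp [F]
  rw [h]
  have h1 : (Sum.inl '' (emb (E := E) ⁻¹' {y}) : Set (E ⊕ G E)).encard ≤ 1 := by
    rw [Set.encard_le_one_iff]
    rintro _ _ ⟨a, ha, rfl⟩ ⟨b, hb, rfl⟩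
    have hab : emb a = emb b := (show emb a = y from ha).trans (show emb b = y from hb).symm
    rw [emb_closedEmbedding.injective hab]
  have h2 : (Sum.inr '' ({y} : Set (G E)) : Set (E ⊕ G E)).encard ≤ 1 := by
    rw [image_singleton, encard_singleton]
  calc _ ≤ _ := encard_union_le _ _
    _ ≤ 1 + 1 := add_le_add h1 h2
    _ = 2 := by norm_num

theorem t35_sum [T35Space E] : T35Space (E ⊕ G E) := by
  let e : E ⊕ G E → G E × Bool := Sum.elim (fun x => (emb x, false)) (fun y => (y, true))
  have h1 : IsClosedEmbedding (fun x : E => (emb x, false)) := by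
    refine IsClosedEmbedding.of_continuous_injective_isClosedMap
      (emb_continuous.prodMk continuous_const) ?_ ?_
    · intro a b hab
      exact emb_closedEmbedding.injective (congrArg Prod.fst hab)
    · have h : (fun x : E => (emb x, false)) = (fun y : G E => (y, false)) ∘ emb := rfl
      rw [h]
      refine IsClosedMap.comp ?_ emb_closedEmbedding.isClosedMap
      intro S hS
      rw [← prod_singleton]
      exact hS.prod isClosed_singleton
  have he : IsClosedEmbedding e := by
    refine IsClosedEmbedding.of_continuous_injective_isClosedMap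
      (h1.continuous.sumElim (continuous_id.prodMk continuous_const)) ?_ ?_
    · rintro (a | a) (b | b) hab
      · exact congrArg Sum.inl (h1.injective hab)
      · exact absurd (congrArg Prod.snd hab) (by simp [e])
      · exact absurd (congrArg Prod.snd hab) (by simp [e])
      · exact congrArg Sum.inr (congrArg Prod.fst hab)
    · refine h1.isClosedMap.sumElim ?_
      intro S hS
      have : (fun y : G E => (y, true)) '' S = S ×ˢ {true} := prod_singleton.symm
      exact this ▸ hS.prod isClosed_singleton
  exact he.isEmbedding.t35Space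

end construction

/-- a clopen summand of a (weakly) Grothendieck space is (weakly) Grothendieck: extend the
functions by zero -/
def ext0 {E : Type u} {W : Type v} [TopologicalSpace E] [TopologicalSpace W] (f : Cp E) :
    Cp (E ⊕ W) := ⟨Sum.elim f.1 fun _ => 0, f.2.sumElim continuous_const⟩

theorem ext0_continuous {E : Type u} {W : Type v} [TopologicalSpace E] [TopologicalSpace W] :
    Continuous (ext0 : Cp E → Cp (E ⊕ W)) := by
  have h : Continuous (fun (f : Cp E) (x : E ⊕ W) => Sum.elim f.1 (fun _ => (0 : ℝ)) x) := by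
    refine continuous_pi fun x => ?_
    cases x with
    | inl x => exact (continuous_apply x).comp continuous_subtype_val
    | inr y => exact continuous_const
  exact h.subtype_mk _

/-- restriction to the first summand -/
def res {E : Type u} {W : Type v} [TopologicalSpace E] [TopologicalSpace W] (f : Cp (E ⊕ W)) :
    Cp E := ⟨fun x => f.1 (Sum.inl x), f.2.comp continuous_inl⟩

theorem res_continuous {E : Type u} {W : Type v} [TopologicalSpace E] [TopologicalSpace W] :
    Continuous (res : Cp (E ⊕ W) → Cp E) := by
  have h : Continuous (fun (f : Cp (E ⊕ W)) (x : E) => f.1 (Sum.inl x)) :=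
    continuous_pi fun x => (continuous_apply _).comp continuous_subtype_val
  exact h.subtype_mk _

theorem weakly_summand {E : Type u} {W : Type v} [TopologicalSpace E] [TopologicalSpace W]
    (h : WeaklyGrothendieck (E ⊕ W)) : WeaklyGrothendieck E := by
  intro A hA
  have h1 : CountablyCompactIn (ext0 (W := W) '' A) :=
    MP_0f8365_gt.CountableFactor.CountablyCompactIn.image hA ext0_continuous
  have h2 : IsCompact (res '' closure (ext0 (W := W) '' A)) := (h _ h1).image res_continuous
  have h3 : closure A ⊆ res '' closure (ext0 (W := W) '' A) := by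
    refine closure_minimal ?_ h2.isClosed
    intro a ha
    exact ⟨ext0 a, subset_closure (mem_image_of_mem _ ha), rfl⟩
  exact h2.of_isClosed_subset isClosed_closure h3

/-- **Theorem.** Every Tychonoff space `E` is a closed subspace of a Grothendieck space `G` such that
the natural map of the topological sum of `E` and `G` onto `G` is a perfect map with fibres of at
most two points; the sum is Tychonoff, and it is not weakly Grothendieck unless `E` is. In particular
(for a space `E` which is not weakly Grothendieck) perfect preimages of Grothendieck spaces need not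
be weakly Grothendieck, even if all fibres have at most two points. -/
theorem result :
    (∀ (E : Type u) [TopologicalSpace E] [T35Space E],
      ∃ (G : Type u) (_ : TopologicalSpace G) (j : E → G), T35Space G ∧ T35Space (E ⊕ G) ∧
        Grothendieck G ∧ IsClosedEmbedding j ∧ IsPerfect (Sum.elim j id : E ⊕ G → G) ∧
        (∀ y, ((Sum.elim j id : E ⊕ G → G) ⁻¹' {y}).encard ≤ 2) ∧
        (WeaklyGrothendieck (E ⊕ G) → WeaklyGrothendieck E)) ∧
    (∃ (E : Type) (_ : TopologicalSpace E), T35Space E ∧ ¬ WeaklyGrothendieck E) ∧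
    ∃ (X Y : Type) (_ : TopologicalSpace X) (_ : TopologicalSpace Y) (f : X → Y),
      T35Space X ∧ T35Space Y ∧ IsPerfect f ∧ (∀ y, (f ⁻¹' {y}).encard ≤ 2) ∧
      Grothendieck Y ∧ WeaklyGrothendieck Y ∧ ¬ Grothendieck X ∧ ¬ WeaklyGrothendieck X := by
  have hmain : ∀ (E : Type u) [TopologicalSpace E] [T35Space E],
      ∃ (G : Type u) (_ : TopologicalSpace G) (j : E → G), T35Space G ∧ T35Space (E ⊕ G) ∧
        Grothendieck G ∧ IsClosedEmbedding j ∧ IsPerfect (Sum.elim j id : E ⊕ G → G) ∧
        (∀ y, ((Sum.elim j id : E ⊕ G → G) ⁻¹' {y}).encard ≤ 2) ∧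
        (WeaklyGrothendieck (E ⊕ G) → WeaklyGrothendieck E) := fun E _ _ =>
    ⟨G E, inferInstance, emb, inferInstance, t35_sum, grothendieck_G, emb_closedEmbedding,
      F_perfect, F_fibre, weakly_summand⟩
  have hw : ∀ (X : Type) [TopologicalSpace X], Grothendieck X → WeaklyGrothendieck X :=
    fun X _ h => PerfectPreimage.weakly_of_grothendieck h
  obtain ⟨E, -, tE, -, h35, -, -, -, -, -, -, -, -, hE, -⟩ := PerfectPreimage.result
  have : T35Space E := h35
  refine ⟨hmain, ⟨E, tE, h35, hE⟩, E ⊕ G E, G E, inferInstance, inferInstance, F, t35_sum,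
    inferInstance, F_perfect, F_fibre, grothendieck_G, hw _ grothendieck_G, fun h => ?_,
    fun h => hE (weakly_summand h)⟩
  exact hE (weakly_summand (hw _ h))

end Pool.Agent.Results.MP_590c78_gt.EverySpaceInside
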